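import Mathlib

set_option autoImplicit false

namespace Pool.Agent.Results.MP_6f9abf_an.Cont

open Filter Topology Set MeasureTheory

universe u v

/-- Countable measurable partitions. -/
structure Part (Ω : Type u) [MeasurableSpace Ω] where
  A : ℕ → Set Ω
  meas : ∀ n, MeasurableSet (A n)
  disj : Pairwise fun m n => Disjoint (A m) (A n)
  cover : ⋃ n, A n = univ

section Defs
variable (𝕜 : Type) [RCLike 𝕜] {Ω : Type u} [MeasurableSpace Ω] (P : Measure Ω)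
  {E : Type v} [AddCommGroup E] [DistribMulAction (Ω →ₘ[P] 𝕜) E]

/-- The class of the indicator of the `n`-th set of a partition. -/
noncomputable def ind (π : Part Ω) (n : ℕ) : Ω →ₘ[P] 𝕜 :=
  AEEqFun.mk ((π.A n).indicator fun _ => 1) (aestronglyMeasurable_const.indicator (π.meas n))

/-- `x = ∑ I_{A n} xs n`. -/
def Glue (π : Part Ω) (xs : ℕ → E) (x : E) : Prop := ∀ n, ind 𝕜 P π n • x = ind 𝕜 P π n • xs n

/-- `L⁰`-seminorms. -/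
def IsSemi (p : E → Ω →ₘ[P] ℝ) : Prop :=
  (∀ x, 0 ≤ p x) ∧ (∀ (ξ : Ω →ₘ[P] 𝕜) x, ∀ᵐ ω ∂P, p (ξ • x) ω = ‖ξ ω‖ * p x ω) ∧
    ∀ x y, p (x + y) ≤ p x + p y

/-- `‖x‖_Q`. -/
noncomputable def nQ (Q : Finset (E → Ω →ₘ[P] ℝ)) (x : E) (ω : Ω) : ℝ := ⨆ p : Q, p.1 x ω

/-- `(E, S)` is a random locally convex module with `E` and `S` both σ-stable. -/
structure StableRLC (S : Set (E → Ω →ₘ[P] ℝ)) : Prop where
  add_smul : ∀ (ξ η : Ω →ₘ[P] 𝕜) (x : E), (ξ + η) • x = ξ • x + η • x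
  semi : ∀ p ∈ S, IsSemi 𝕜 P p
  sep : ∀ x, (∀ p ∈ S, p x = 0) → x = 0
  stableE : ∀ (π : Part Ω) (xs : ℕ → E), ∃ x, Glue 𝕜 P π xs x
  stableS : ∀ (π : Part Ω) (Q : ℕ → Finset (E → Ω →ₘ[P] ℝ)), (∀ n, (Q n).Nonempty ∧ ↑(Q n) ⊆ S) →
    ∃ q ∈ S, ∀ x n, ∀ᵐ ω ∂P, ω ∈ π.A n → q x ω = nQ P (Q n) x ω

/-- σ-stable subsets. -/
def StableSet (G : Set E) : Prop :=
  ∀ (π : Part Ω) (xs : ℕ → E) (x : E), (∀ n, xs n ∈ G) → Glue 𝕜 P π xs x → x ∈ G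

/-- σ-stable maps on `G`. -/
def StableMap (G : Set E) (f : E → E) : Prop :=
  ∀ (π : Part Ω) (xs : ℕ → E) (x : E), (∀ n, xs n ∈ G) → Glue 𝕜 P π xs x →
    Glue 𝕜 P π (fun n => f (xs n)) (f x)

/-- Continuity on `G` for the `(ε, λ)`-topology. -/
def ContEL (S : Set (E → Ω →ₘ[P] ℝ)) (G : Set E) (f : E → E) : Prop :=
  ∀ x₀ ∈ G, ∀ Q : Finset (E → Ω →ₘ[P] ℝ), ↑Q ⊆ S → ∀ ε l : ℝ, 0 < ε → 0 < l → l < 1 →
    ∃ Q' : Finset (E → Ω →ₘ[P] ℝ), ↑Q' ⊆ S ∧ ∃ δ m : ℝ, 0 < δ ∧ 0 < m ∧ m < 1 ∧ ∀ x ∈ G,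
      1 - m < P.real {ω | nQ P Q' (x - x₀) ω < δ} → 1 - l < P.real {ω | nQ P Q (f x - f x₀) ω < ε}

/-- Continuity on `G` for the locally `L⁰`-convex topology. -/
def ContC (S : Set (E → Ω →ₘ[P] ℝ)) (G : Set E) (f : E → E) : Prop :=
  ∀ x₀ ∈ G, ∀ Q : Finset (E → Ω →ₘ[P] ℝ), ↑Q ⊆ S → ∀ ε : Ω →ₘ[P] ℝ, (∀ᵐ ω ∂P, 0 < ε ω) →
    ∃ Q' : Finset (E → Ω →ₘ[P] ℝ), ↑Q' ⊆ S ∧ ∃ δ : Ω →ₘ[P] ℝ, (∀ᵐ ω ∂P, 0 < δ ω) ∧ ∀ x ∈ G,
      (∀ᵐ ω ∂P, nQ P Q' (x - x₀) ω < δ ω) → ∀ᵐ ω ∂P, nQ P Q (f x - f x₀) ω < ε ω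
end Defs

section Proofs
variable {𝕜 : Type} [RCLike 𝕜] {Ω : Type u} [MeasurableSpace Ω] {P : Measure Ω}
  {E : Type v} [AddCommGroup E] [DistribMulAction (Ω →ₘ[P] 𝕜) E] {S : Set (E → Ω →ₘ[P] ℝ)}

theorem mkPart (B : ℕ → Set Ω) (hB : ∀ n, MeasurableSet (B n)) :
    ∃ π : Part Ω, π.A 0 ⊆ (⋃ k, B k)ᶜ ∧ ∀ k, π.A (k + 1) ⊆ B k := by
  let C : ℕ → Set Ω := fun n => Nat.casesOn n (⋃ k, B k)ᶜ B
  have hC : ∀ n, MeasurableSet (C n) := fun n => by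
    cases n with
    | zero => exact (MeasurableSet.iUnion hB).compl
    | succ k => exact hB k
  refine ⟨⟨disjointed C, MeasurableSet.disjointed hC, disjoint_disjointed C, ?_⟩,
    disjointed_subset C 0, fun k => disjointed_subset C (k + 1)⟩
  rw [iUnion_disjointed, eq_univ_iff_forall]
  intro ω
  by_cases h : ω ∈ ⋃ k, B k
  · obtain ⟨k, hk⟩ := mem_iUnion.mp h
    exact mem_iUnion.mpr ⟨k + 1, hk⟩
  · exact mem_iUnion.mpr ⟨0, h⟩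

theorem Part.ex (π : Part Ω) (ω : Ω) : ∃ n, ω ∈ π.A n := mem_iUnion.mp (π.cover ▸ mem_univ ω)

theorem nQ_meas (Q : Finset (E → Ω →ₘ[P] ℝ)) (x : E) : Measurable (nQ P Q x) :=
  Measurable.iSup fun p => (p.1 x).measurable

theorem loc (h : StableRLC 𝕜 P S) {π : Part Ω} {xs : ℕ → E} {x : E} (hg : Glue 𝕜 P π xs x)
    {Q : Finset (E → Ω →ₘ[P] ℝ)} (hQ : ↑Q ⊆ S) (y : E) :
    ∀ᵐ ω ∂P, ∀ n, ω ∈ π.A n → nQ P Q (x - y) ω = nQ P Q (xs n - y) ω := by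
  refine ae_all_iff.mpr fun n => ?_
  have : ∀ᵐ ω ∂P, ∀ p : Q, ω ∈ π.A n → p.1 (x - y) ω = p.1 (xs n - y) ω := by
    refine ae_all_iff.mpr fun p => ?_
    have h1 := (h.semi p.1 (hQ p.2)).2.1 (ind 𝕜 P π n)
    have h2 := h1 (x - y)
    rw [smul_sub, hg n, ← smul_sub] at h2
    filter_upwards [h2, h1 (xs n - y), AEEqFun.coeFn_mk (μ := P) ((π.A n).indicator fun _ => (1 : 𝕜))
      (aestronglyMeasurable_const.indicator (π.meas n))] with ω e1 e2 e3 hω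
    have e4 : ind 𝕜 P π n ω = 1 := e3.trans (indicator_of_mem hω _)
    rw [e4, norm_one, one_mul] at e1 e2
    rw [← e1, e2]
  filter_upwards [this] with ω h1 hω
  exact iSup_congr fun p => h1 p hω

theorem nQ_zero (h : StableRLC 𝕜 P S) {Q : Finset (E → Ω →ₘ[P] ℝ)} (hQ : ↑Q ⊆ S) :
    ∀ᵐ ω ∂P, nQ P Q 0 ω = 0 := by
  have : ∀ᵐ ω ∂P, ∀ p : Q, p.1 0 ω = 0 := by
    refine ae_all_iff.mpr fun p => ?_
    have h1 := (h.semi p.1 (hQ p.2)).2.1 (0 : Ω →ₘ[P] 𝕜) 0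
    rw [smul_zero] at h1
    filter_upwards [h1, AEEqFun.coeFn_zero (μ := P) (β := 𝕜)] with ω e1 e2
    rw [e1, e2]; simp
  filter_upwards [this] with ω h1
  simp [nQ, h1]

theorem greatest [IsFiniteMeasure P] {ι : Type*} (T : Set ι) (hT : T.Nonempty) (B : ι → Set Ω)
    (hB : ∀ i, MeasurableSet (B i))
    (hu : ∀ x : ℕ → ι, (∀ n, x n ∈ T) → ∃ y ∈ T, ∀ᵐ ω ∂P, ∀ n, ω ∈ B (x n) → ω ∈ B y) :
    ∃ y ∈ T, ∀ x ∈ T, ∀ᵐ ω ∂P, ω ∈ B x → ω ∈ B y := by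
  obtain ⟨u, -, hu1, hu2⟩ := exists_seq_tendsto_sSup (S := (fun i => P (B i)) '' T) (hT.image _)
    (OrderTop.bddAbove _)
  choose x hx hx2 using hu2
  obtain ⟨y, hy, hy2⟩ := hu x hx
  have h1 : sSup ((fun i => P (B i)) '' T) ≤ P (B y) := by
    refine le_of_tendsto' hu1 fun n => ?_
    rw [← hx2 n]
    exact measure_mono_ae (hy2.mono fun ω h => h n)
  refine ⟨y, hy, fun z hz => ?_⟩
  obtain ⟨w, hw, hw2⟩ := hu (fun n => Nat.casesOn n y fun _ => z) fun n => by cases n <;> assumption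
  have h2 : P (B w) ≤ P (B y) := (le_sSup (mem_image_of_mem _ hw)).trans h1
  have h3 : B y =ᵐ[P] B w := ae_eq_of_ae_subset_of_measure_ge (hw2.mono fun ω h => h 0) h2
    (hB y).nullMeasurableSet (measure_ne_top _ _)
  filter_upwards [hw2, h3] with ω e1 e2 hω
  exact (show B y ω = B w ω from e2).mpr (e1 1 hω)

theorem step [IsProbabilityMeasure P] (h : StableRLC 𝕜 P S) {G : Set E} (hG : StableSet 𝕜 P G)
    {f : E → E} (hf : StableMap 𝕜 P G f) (hc : ContEL P S G f) {x₀ : E} (h0 : x₀ ∈ G)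
    {Q : Finset (E → Ω →ₘ[P] ℝ)} (hQ : ↑Q ⊆ S) (hne : Q.Nonempty) {ε l : ℝ} (hε : 0 < ε) (hl : 0 < l)
    (hl1 : l < 1) : ∃ Q' : Finset (E → Ω →ₘ[P] ℝ), (Q'.Nonempty ∧ ↑Q' ⊆ S) ∧ ∃ δ : ℝ, 0 < δ ∧
      ∃ A, MeasurableSet A ∧ P.real A ≤ l ∧ ∀ x ∈ G, (∀ᵐ ω ∂P, nQ P Q' (x - x₀) ω < δ) →
        ∀ᵐ ω ∂P, ω ∉ A → nQ P Q (f x - f x₀) ω < ε := by
  obtain ⟨Q₁, hQ₁, δ, m, hδ, hm, -, H⟩ := hc x₀ h0 Q hQ ε l hε hl hl1
  obtain ⟨Q', hQ', hQ2⟩ : ∃ Q' : Finset (E → Ω →ₘ[P] ℝ), (Q'.Nonempty ∧ ↑Q' ⊆ S) ∧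
      ∀ x ω, nQ P Q' x ω < δ → nQ P Q₁ x ω < δ := by
    rcases Q₁.eq_empty_or_nonempty with rfl | hn
    · exact ⟨Q, ⟨hne, hQ⟩, fun x ω _ => by simpa [nQ] using hδ⟩
    · exact ⟨Q₁, ⟨hn, hQ₁⟩, fun _ _ h => h⟩
  have hB : ∀ x, MeasurableSet {ω | ε ≤ nQ P Q (f x - f x₀) ω} := fun x =>
    measurableSet_le measurable_const (nQ_meas _ _)
  have hx0 : ∀ᵐ ω ∂P, nQ P Q' (x₀ - x₀) ω < δ := by
    rw [sub_self]
    filter_upwards [nQ_zero h hQ'.2] with ω e using e ▸ hδ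
  obtain ⟨y, ⟨hy, hy1⟩, hy2⟩ := greatest (P := P) {x | x ∈ G ∧ ∀ᵐ ω ∂P, nQ P Q' (x - x₀) ω < δ}
    ⟨x₀, h0, hx0⟩ (fun x => {ω | ε ≤ nQ P Q (f x - f x₀) ω}) hB (by
      intro x hx
      obtain ⟨π, p0, p1⟩ := mkPart _ fun n => hB (x n)
      let xs : ℕ → E := fun n => Nat.casesOn n x₀ x
      have hxs : ∀ n, xs n ∈ G ∧ ∀ᵐ ω ∂P, nQ P Q' (xs n - x₀) ω < δ := fun n => by
        cases n with
        | zero => exact ⟨h0, hx0⟩
        | succ k => exact hx k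
      obtain ⟨y, hy⟩ := h.stableE π xs
      refine ⟨y, ⟨hG π xs y (fun n => (hxs n).1) hy, ?_⟩, ?_⟩
      · filter_upwards [loc h hy hQ'.2 x₀, ae_all_iff.mpr fun n => (hxs n).2] with ω e1 e2
        obtain ⟨n, hn⟩ := π.ex ω
        rw [e1 n hn]; exact e2 n
      · filter_upwards [loc h (hf π xs y (fun n => (hxs n).1) hy) hQ (f x₀)] with ω e1 k hk
        obtain ⟨n, hn⟩ := π.ex ω
        cases n with
        | zero => exact absurd (mem_iUnion.mpr ⟨k, hk⟩) (p0 hn)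
        | succ j =>
          show ε ≤ _
          rw [e1 _ hn]; exact p1 j hn)
  refine ⟨Q', hQ', δ, hδ, _, hB y, ?_, fun x hx hx1 => ?_⟩
  · have h1 := H y hy (by
      have : {ω | nQ P Q₁ (y - x₀) ω < δ} =ᵐ[P] univ :=
        ae_eq_univ.mpr (hy1.mono fun ω e => hQ2 _ _ e)
      rw [measureReal_congr this, probReal_univ]; linarith)
    have h2 := probReal_compl_eq_one_sub (μ := P) (hB y)
    rw [show {ω | ε ≤ nQ P Q (f y - f x₀) ω}ᶜ = {ω | nQ P Q (f y - f x₀) ω < ε} by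
      ext ω; simp] at h2
    linarith
  · filter_upwards [hy2 x ⟨hx, hx1⟩] with ω e hω
    exact not_le.mp fun h => hω (e h)

end Proofs

theorem result (𝕜 : Type) [RCLike 𝕜] {Ω : Type u} [MeasurableSpace Ω] (P : Measure Ω)
    [IsProbabilityMeasure P] {E : Type v} [AddCommGroup E] [DistribMulAction (Ω →ₘ[P] 𝕜) E]
    (S : Set (E → Ω →ₘ[P] ℝ)) (h : StableRLC 𝕜 P S) (G : Set E) (hG : StableSet 𝕜 P G)
    (f : E → E) (_hm : MapsTo f G G) (hf : StableMap 𝕜 P G f) (hc : ContEL P S G f) :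
    ContC P S G f := by
  classical
  intro x₀ h0 Q hQ ε hε
  rcases Q.eq_empty_or_nonempty with rfl | hne
  · exact ⟨∅, hQ, ε, hε, fun x _ _ => hε.mono fun ω e => by simpa [nQ] using e⟩
  choose Q' hQ' δ hδ A hA hA1 H using fun n : ℕ => step h hG hf hc h0 hQ hne
    (ε := 1 / ((n : ℝ) + 1)) (l := 1 / ((n : ℝ) + 1) / 2) (by positivity) (by positivity) (by
      have : 1 / ((n : ℝ) + 1) ≤ 1 := by
        rw [div_le_one (by positivity)]; linarith [n.cast_nonneg (α := ℝ)]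
      linarith)
  let D : ℕ → Set Ω := fun n => (A n)ᶜ ∩ {ω | 1 / ((n : ℝ) + 1) ≤ ε ω}
  have hD : ∀ n, MeasurableSet (D n) := fun n =>
    (hA n).compl.inter (measurableSet_le measurable_const ε.measurable)
  have hcov : ∀ᵐ ω ∂P, ω ∈ ⋃ n, D n := by
    have h1 : ∀ m : ℕ, ∀ᵐ ω ∂P, ω ∉ (⋃ n, D n)ᶜ ∩ {ω | 1 / ((m : ℝ) + 1) ≤ ε ω} := by
      intro m
      rw [← measure_eq_zero_iff_ae_notMem, ← measureReal_eq_zero_iff]
      refine le_antisymm (ge_of_tendsto (tendsto_one_div_add_atTop_nhds_zero_nat (𝕜 := ℝ)) ?_)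
        measureReal_nonneg
      filter_upwards [eventually_ge_atTop m] with n hn
      refine (measureReal_mono (fun ω hω => ?_)).trans ((hA1 n).trans (half_le_self (by positivity)))
      by_contra h2
      have h3 : 1 / ((m : ℝ) + 1) ≤ ε ω := hω.2
      exact hω.1 (mem_iUnion.mpr ⟨n, h2, show 1 / ((n : ℝ) + 1) ≤ ε ω from
        (Nat.one_div_le_one_div hn).trans h3⟩)
    filter_upwards [ae_all_iff.mpr h1, hε] with ω e1 e2
    obtain ⟨m, hm⟩ := exists_nat_one_div_lt e2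
    by_contra h2
    exact e1 m ⟨h2, hm.le⟩
  obtain ⟨π, p0, p1⟩ := mkPart D hD
  obtain ⟨q, hq, hq2⟩ := h.stableS π (fun n => Q' (n - 1)) fun n => hQ' _
  have hme : Measurable fun ω => δ (Nat.find (π.ex ω) - 1) :=
    (measurable_from_top (f := fun n => δ (n - 1))).comp (measurable_find π.ex π.meas)
  refine ⟨{q}, by simpa using hq, AEEqFun.mk _ hme.aestronglyMeasurable,
    (AEEqFun.coeFn_mk _ _).mono fun ω e => e ▸ hδ _, fun x hx hx1 => ?_⟩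
  have key : ∀ k, ∀ᵐ ω ∂P, ω ∈ π.A (k + 1) → nQ P Q (f x - f x₀) ω < ε ω := by
    intro k
    obtain ⟨ρ, r0, r1⟩ := mkPart (fun _ => π.A (k + 1)) fun _ => π.meas _
    let xs : ℕ → E := fun n => Nat.casesOn n x₀ fun _ => x
    have hxs : ∀ n, xs n ∈ G := fun n => by cases n <;> assumption
    obtain ⟨y, hy⟩ := h.stableE ρ xs
    have h1 := H k y (hG ρ xs y hxs hy) (by
      filter_upwards [loc h hy (hQ' k).2 x₀, nQ_zero h (hQ' k).2, hq2 (x - x₀) (k + 1), hx1,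
        AEEqFun.coeFn_mk (μ := P) _ hme.aestronglyMeasurable] with ω e1 e2 e3 e4 e5
      obtain ⟨n, hn⟩ := ρ.ex ω
      rw [e1 n hn]
      cases n with
      | zero =>
        show nQ P (Q' k) (x₀ - x₀) ω < _
        rw [sub_self, e2]; exact hδ k
      | succ j =>
        have h2 := r1 j hn
        have h3 : Nat.find (π.ex ω) = k + 1 := by
          by_contra h4
          exact (π.disj h4).notMem_of_mem_left (Nat.find_spec (π.ex ω)) h2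
        rw [e5, h3, nQ, ciSup_unique] at e4
        exact (e3 h2).symm.trans_lt e4)
    filter_upwards [h1, loc h (hf ρ xs y hxs hy) hQ (f x₀)] with ω e1 e2 hω
    obtain ⟨n, hn⟩ := ρ.ex ω
    cases n with
    | zero => exact absurd (mem_iUnion.mpr ⟨0, hω⟩) (r0 hn)
    | succ j => exact ((e2 _ hn).symm.trans_lt (e1 (p1 k hω).1)).trans_le (p1 k hω).2
  filter_upwards [ae_all_iff.mpr key, hcov] with ω e1 e2
  obtain ⟨n, hn⟩ := π.ex ω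
  cases n with
  | zero => exact absurd e2 (p0 hn)
  | succ k => exact e1 k hn

end Pool.Agent.Results.MP_6f9abf_an.Cont
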